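import Pool.Agent.H8.DS.TarG
import Pool.Agent.H8.DS.TarK

/-!
Module INV: invariance of `Gen` and `Rr` (MP_81a758_an).
-/

namespace DS

open Set Data

namespace H7INV

variable {C S : Type}

theorem hc_snoc (X : Data C S) (t : ℝ) : ∀ (n : ℕ) (y y' : S × ℝ),
    X.HC t (n + 1) y y' ↔ ∃ y₁, X.HC t n y y₁ ∧ X.Hit t y₁ y'
  | 0, y, y' => by
    constructor
    · rintro ⟨y₁, h, h'⟩
      refine ⟨y, rfl, ?_⟩
      have h2 : y₁ = y' := h'
      rw [← h2]; exact h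
    · rintro ⟨y₁, h, h'⟩
      have h2 : y = y₁ := h
      refine ⟨y', ?_, rfl⟩
      rw [h2]; exact h'
  | n + 1, y, y' => by
    constructor
    · rintro ⟨y₁, h, h'⟩
      obtain ⟨y₂, h2, h3⟩ := (hc_snoc X t n y₁ y').1 h'
      exact ⟨y₂, ⟨y₁, h, h2⟩, h3⟩
    · rintro ⟨y₂, ⟨y₁, h, h2⟩, h3⟩
      exact ⟨y₁, h, (hc_snoc X t n y₁ y').2 ⟨y₂, h2, h3⟩⟩

theorem fc_snoc (X : Data C S) (t : ℝ) : ∀ (n : ℕ) (y y' : S × ℝ),
    X.FC t (n + 1) y y' ↔ ∃ y₁, X.FC t n y y₁ ∧ X.Hit t y₁ y' ∧ ¬ X.Hopf (X.comp (X.glue y₁.1))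
  | 0, y, y' => by
    constructor
    · rintro ⟨y₁, h, hf, h'⟩
      refine ⟨y, rfl, ?_, hf⟩
      have h2 : y₁ = y' := h'
      rw [← h2]; exact h
    · rintro ⟨y₁, h, h', hf⟩
      have h2 : y = y₁ := h
      subst h2
      exact ⟨y', h', hf, rfl⟩
  | n + 1, y, y' => by
    constructor
    · rintro ⟨y₁, h, hf, h'⟩
      obtain ⟨y₂, h2, h3⟩ := (fc_snoc X t n y₁ y').1 h'
      exact ⟨y₂, ⟨y₁, h, hf, h2⟩, h3⟩
    · rintro ⟨y₂, ⟨y₁, h, hf, h2⟩, h3⟩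
      exact ⟨y₁, h, hf, (fc_snoc X t n y₁ y').2 ⟨y₂, h2, h3⟩⟩

end H7INV

theorem pf_INV (hD : T_HITD) (hE : T_HEND) : T_INV := by
  intro C S _ X hX t y y' hit
  have hnA := (hE C S X hX t y y' hit).1
  have hnB := (hE C S X hX t y y' hit).2
  refine ⟨⟨?_, ?_⟩, ?_⟩
  · rintro ⟨hF, hB⟩
    refine ⟨fun n z hz => hF (n + 1) z ⟨y', hit, hz⟩, ?_⟩
    intro n z hz
    cases n with
    | zero =>
      have h2 : z = y' := hz
      rw [h2]; exact hnB
    | succ n =>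
      obtain ⟨z₁, h1, h2⟩ := (H7INV.hc_snoc X t n z y').1 hz
      have h3 : z₁ = y := (hD C S X hX t y' z₁ y).2 h2 hit
      exact hB n z (h3 ▸ h1)
  · rintro ⟨hF, hB⟩
    constructor
    · intro n z hz
      cases n with
      | zero =>
        have h2 : y = z := hz
        rw [← h2]; exact hnA
      | succ n =>
        obtain ⟨y₁, h1, h2⟩ := hz
        have h3 : y₁ = y' := (hD C S X hX t y y₁ y').1 h1 hit
        exact hF n z (h3 ▸ h2)
    · intro n z hz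
      exact hB (n + 1) z ((H7INV.hc_snoc X t n z y').2 ⟨y, hz, hit⟩)
  · intro hf
    constructor
    · intro hR n
      constructor
      · obtain ⟨z, y₁, h1, h2, h3⟩ := (hR (n + 1)).1
        have h4 : y₁ = y' := (hD C S X hX t y y₁ y').1 h1 hit
        exact ⟨z, h4 ▸ h3⟩
      · cases n with
        | zero => exact ⟨y', rfl⟩
        | succ n =>
          obtain ⟨z, hz⟩ := (hR n).2
          exact ⟨z, (H7INV.fc_snoc X t n z y').2 ⟨y, hz, hit, hf⟩⟩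
    · intro hR n
      constructor
      · cases n with
        | zero => exact ⟨y, rfl⟩
        | succ n =>
          obtain ⟨z, hz⟩ := (hR n).1
          exact ⟨z, y', hit, hf, hz⟩
      · obtain ⟨z, hz⟩ := (hR (n + 1)).2
        obtain ⟨z₁, h1, h2, h3⟩ := (H7INV.fc_snoc X t n z y').1 hz
        have h4 : z₁ = y := (hD C S X hX t y' z₁ y).2 h2 hit
        exact ⟨z, h4 ▸ h1⟩

end DS
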