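import Pool.Agent.H8.DS.TarG
import Pool.Agent.H8.DS.TarK

/-!
Module K4G: chains of returns between two slits of a flat torus (MP_81a758_an).
-/

namespace DS

open Set Data

namespace H7K4G

variable {C S : Type}

/-- Only finitely many heights on a bounded segment are on slits. -/
theorem fin_heights [Finite S] (hL : T_LOCF) (X : Data C S) (hX : X.Surface) (t : ℝ) (c : C)
    (hc : ¬ X.Hopf c) (z : ℝ × ℝ) (H : ℝ) :
    {κ | 0 < κ ∧ κ ≤ H ∧ ¬ X.Pure c (fwd t z κ)}.Finite := by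
  classical
  set R : ℝ := |z.1| + |t| * H + |z.2| + H with hR
  have hfin : ∀ s' : S, X.comp s' = c →
      {g | g ∈ X.deck (X.comp s') ∧ ∃ ξ ∈ Icc (0 : ℝ) 1, |(act g (X.pt s' ξ)).1| ≤ R ∧
        |(act g (X.pt s' ξ)).2| ≤ R ∧ (X.Hopf (X.comp s') →
          (1 : ℝ) ≤ |(act g (X.pt s' ξ)).1| ∨ 1 ≤ |(act g (X.pt s' ξ)).2|)}.Finite :=
    fun s' _ => hL C S X hX s' 1 R one_pos
  have hunion : (⋃ s' : {s' : S // X.comp s' = c},
      (fun g : ℝ × ℝ × ℝ => (g.1 * X.b s'.1 + g.2.2) - z.2) ''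
        {g | g ∈ X.deck (X.comp s'.1) ∧ ∃ ξ ∈ Icc (0 : ℝ) 1, |(act g (X.pt s'.1 ξ)).1| ≤ R ∧
        |(act g (X.pt s'.1 ξ)).2| ≤ R ∧ (X.Hopf (X.comp s'.1) →
          (1 : ℝ) ≤ |(act g (X.pt s'.1 ξ)).1| ∨ 1 ≤ |(act g (X.pt s'.1 ξ)).2|)}).Finite :=
    Set.finite_iUnion (fun s' => (hfin s'.1 s'.2).image _)
  refine hunion.subset ?_
  rintro κ ⟨h0, hH, hP⟩
  have hon : X.OnSlit c (fwd t z κ) := by
    by_contra hno
    exact hP ⟨hno, fun h => absurd h hc⟩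
  obtain ⟨s', hs', g, hg, ξ, hξ, he⟩ := hon
  refine Set.mem_iUnion.2 ⟨⟨s', hs'⟩, g, ⟨by rw [hs']; exact hg, ξ, hξ, ?_, ?_, ?_⟩, ?_⟩
  · show |(act g (X.pt s' ξ)).1| ≤ R
    rw [← he]
    show |z.1 + t * κ| ≤ R
    have h1 : |z.1 + t * κ| ≤ |z.1| + |t * κ| := abs_add_le _ _
    have h2 : |t * κ| = |t| * κ := by rw [abs_mul, abs_of_pos h0]
    have h3 : |t| * κ ≤ |t| * H := mul_le_mul_of_nonneg_left hH (abs_nonneg t)
    have h4 : 0 ≤ |z.2| := abs_nonneg _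
    rw [hR]; linarith
  · show |(act g (X.pt s' ξ)).2| ≤ R
    rw [← he]
    show |z.2 + κ| ≤ R
    have h1 : |z.2 + κ| ≤ |z.2| + |κ| := abs_add_le _ _
    have h2 : |κ| = κ := abs_of_pos h0
    have h3 : 0 ≤ |t| * H := mul_nonneg (abs_nonneg t) (by linarith)
    have h4 : 0 ≤ |z.1| := abs_nonneg _
    rw [hR]; linarith
  · intro h
    exact absurd (hs' ▸ h) hc
  · show (g.1 * X.b s' + g.2.2) - z.2 = κ
    have h1 : (fwd t z κ).2 = (act g (X.pt s' ξ)).2 := by rw [he]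
    have h2 : z.2 + κ = g.1 * X.b s' + g.2.2 := h1
    linarith

theorem chain [Finite S] (hL : T_LOCF) (hE : T_EQV) (X : Data C S) (hX : X.Surface)
    (t : ℝ) (s : S) (hc : ¬ X.Hopf (X.comp s)) (ξ₀ : ℝ) (hξ₀ : ξ₀ ∈ Ioo (0 : ℝ) 1) (H : ℝ)
    (hend : ∀ κ, 0 < κ → κ ≤ H → ¬ X.OnEnd (X.comp s) (fwd t (X.pt s ξ₀) κ)) :
    ∀ κ, 0 < κ → κ ≤ H → ∀ s' g ξ', X.comp s' = X.comp s → g ∈ X.deck (X.comp s) →
      ξ' ∈ Ioo (0 : ℝ) 1 → fwd t (X.pt s ξ₀) κ = act g (X.pt s' ξ') →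
      Relation.ReflTransGen (fun s₁ s₂ => X.comp s₁ = X.comp s₂ ∧ ∃ ξ₁ ξ₂ : ℝ,
        X.Hit t (X.glue.symm s₁, ξ₁) (s₂, ξ₂)) s s' := by
  classical
  set z := X.pt s ξ₀ with hz
  set c := X.comp s with hcdef
  set Rl := (fun s₁ s₂ => X.comp s₁ = X.comp s₂ ∧ ∃ ξ₁ ξ₂ : ℝ,
        X.Hit t (X.glue.symm s₁, ξ₁) (s₂, ξ₂)) with hRl
  set A : Set ℝ := {κ | 0 < κ ∧ κ ≤ H ∧ ¬ X.Pure c (fwd t z κ)} with hA
  have hAfin : A.Finite := fin_heights hL X hX t c hc z H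
  by_contra hcon
  push Not at hcon
  obtain ⟨κ₀, hκ₀, hκ₀H, s₀, g₀, ξ₁, hs₀, hg₀, hξ₁, he₀, hno₀⟩ := hcon
  have hmemA : ∀ κ, 0 < κ → κ ≤ H → ∀ s' g ξ', X.comp s' = c → g ∈ X.deck c →
      ξ' ∈ Ioo (0 : ℝ) 1 → fwd t z κ = act g (X.pt s' ξ') → κ ∈ A := by
    intro κ h1 h2 s' g ξ' hs' hg hξ' he
    refine ⟨h1, h2, fun hp => hp.1 ⟨s', hs', g, hg, ξ', ⟨hξ'.1.le, hξ'.2.le⟩, he⟩⟩
  set Bad : Set ℝ := {κ | 0 < κ ∧ κ ≤ H ∧ ∃ s' g ξ', X.comp s' = c ∧ g ∈ X.deck c ∧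
    ξ' ∈ Ioo (0 : ℝ) 1 ∧ fwd t z κ = act g (X.pt s' ξ') ∧
      ¬ Relation.ReflTransGen Rl s s'} with hBad
  have hBadA : Bad ⊆ A := by
    rintro κ ⟨h1, h2, s', g, ξ', hs', hg, hξ', he, -⟩
    exact hmemA κ h1 h2 s' g ξ' hs' hg hξ' he
  have hBadne : Bad.Nonempty := ⟨κ₀, hκ₀, hκ₀H, s₀, g₀, ξ₁, hs₀, hg₀, hξ₁, he₀, hno₀⟩
  obtain ⟨κ, hκB, hκmin⟩ := Set.exists_min_image Bad id (hAfin.subset hBadA) hBadne
  obtain ⟨hκ, hκH, s', g, ξ', hs', hg, hξ', he, hno⟩ := hκB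
  -- the last event before
  set A' : Set ℝ := insert 0 (A ∩ Iio κ) with hA'
  have hA'fin : A'.Finite := (hAfin.inter_of_left _).insert _
  obtain ⟨κ', hκ'A, hκ'max⟩ := Set.exists_max_image A' id hA'fin ⟨0, Set.mem_insert _ _⟩
  have hκ'lt : κ' < κ := by
    rcases hκ'A with h | h
    · rw [h]; exact hκ
    · exact h.2
  have hκ'0 : 0 ≤ κ' := hκ'max 0 (Set.mem_insert _ _)
  -- the slit there
  have hprev : ∃ s'' g'' ξ'', X.comp s'' = c ∧ g'' ∈ X.deck c ∧ ξ'' ∈ Ioo (0 : ℝ) 1 ∧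
      fwd t z κ' = act g'' (X.pt s'' ξ'') ∧ Relation.ReflTransGen Rl s s'' := by
    rcases hκ'A with h | h
    · refine ⟨s, (1, 0, 0), ξ₀, rfl, deck_one X hX c, hξ₀, ?_, Relation.ReflTransGen.refl⟩
      rw [h, fwd_zero, act_one]
    · obtain ⟨⟨h0, h1, h2⟩, h3⟩ := h
      have hon : X.OnSlit c (fwd t z κ') := by
        by_contra hno
        exact h2 ⟨hno, fun h => absurd h hc⟩
      obtain ⟨s'', hs'', g'', hg'', ξ'', hξ'', he''⟩ := hon
      have hne0 : ξ'' ≠ 0 := by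
        rintro rfl
        exact hend κ' h0 h1 ⟨s'', hs'', g'', hg'', Or.inl he''⟩
      have hne1 : ξ'' ≠ 1 := by
        rintro rfl
        exact hend κ' h0 h1 ⟨s'', hs'', g'', hg'', Or.inr he''⟩
      have hIoo : ξ'' ∈ Ioo (0 : ℝ) 1 :=
        ⟨lt_of_le_of_ne hξ''.1 (Ne.symm hne0), lt_of_le_of_ne hξ''.2 hne1⟩
      refine ⟨s'', g'', ξ'', hs'', hg'', hIoo, he'', ?_⟩
      by_contra hnot
      have h4 : κ' ∈ Bad := ⟨h0, h1, s'', g'', ξ'', hs'', hg'', hIoo, he'', hnot⟩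
      have h5 : κ ≤ κ' := hκmin κ' h4
      linarith
  obtain ⟨s'', g'', ξ'', hs'', hg'', hξ'', he'', hchain⟩ := hprev
  apply hno
  refine hchain.tail ⟨hs''.trans hs'.symm, ξ'', ξ', ?_⟩
  have hg''1 : g''.1 = 1 := deck_flat X hX c hc g'' hg''
  have hgi : (ginv g'').1 = 1 := by show (g''.1)⁻¹ = 1; rw [hg''1]; exact inv_one
  have hglue : X.glue (X.glue.symm s'') = s'' := Equiv.apply_symm_apply _ _
  refine ⟨hξ'', hξ', ?_, ?_⟩
  · show X.comp s' = X.comp (X.glue (X.glue.symm s''))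
    rw [hglue, hs', hs'']
  · show ∃ g ∈ X.deck (X.comp s'), ∃ h > 0,
      X.Clear t (X.comp (X.glue (X.glue.symm s''))) (X.pt (X.glue (X.glue.symm s'')) ξ'') h ∧
      fwd t (X.pt (X.glue (X.glue.symm s'')) ξ'') h = act g (X.pt s' ξ')
    rw [hglue, hs', hs'']
    refine ⟨gmul (ginv g'') g, deck_mul X hX c _ _ (deck_inv X hX c g'' hg'') hg, κ - κ',
      by linarith, ?_, ?_⟩
    · have h1 := ((hE C S X hX c g'' hg'' (X.pt s'' ξ'')).2.2.2.2 t (κ - κ'))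
      apply h1.1
      rw [← he'', hg''1, one_mul]
      intro k hk0 hk1
      rw [fwd_add]
      by_contra hnp
      have h2 : κ' + k ∈ A' :=
        Set.mem_insert_of_mem _ ⟨⟨by linarith, by linarith, hnp⟩, by show κ' + k < κ; linarith⟩
      have h3 : κ' + k ≤ κ' := hκ'max _ h2
      linarith
    · have h1 : X.pt s'' ξ'' = act (ginv g'') (fwd t z κ') := by
        rw [he'', act_ginv g'' (by rw [hg''1]; exact one_ne_zero)]
      rw [h1, act_gmul, ← he]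
      have h2 := act_fwd (ginv g'') t (fwd t z κ') (κ - κ')
      rw [hgi, one_mul] at h2
      rw [← h2, fwd_add]
      congr 2
      ring

/-- The parameters from which the line meets an end point. -/
theorem bad_countable [Finite S] (X : Data C S) (hX : X.Surface) (t : ℝ) (s : S) (c : C) :
    {ξ | ∃ κ, X.OnEnd c (fwd t (X.pt s ξ) κ)}.Countable := by
  have hpos := hX.pos s
  set F : S × (ℤ × ℤ) × Bool → ℝ := fun p =>
    ((((X.kind c).el p.2.1).1 * (X.a p.1 + (if p.2.2 then 1 else 0) * X.len p.1) +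
      ((X.kind c).el p.2.1).2.1) - X.a s -
      t * (((X.kind c).el p.2.1).1 * X.b p.1 + ((X.kind c).el p.2.1).2.2 - X.b s)) / X.len s
    with hF
  refine (Set.countable_range F).mono ?_
  rintro ξ ⟨κ, s', hs', g, ⟨m, rfl⟩, he | he⟩
  · refine ⟨(s', m, false), ?_⟩
    have h1 : X.a s + ξ * X.len s + t * κ = ((X.kind c).el m).1 * (X.a s' + 0 * X.len s') +
        ((X.kind c).el m).2.1 := congrArg Prod.fst he
    have h2 : X.b s + κ = ((X.kind c).el m).1 * X.b s' + ((X.kind c).el m).2.2 :=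
      congrArg Prod.snd he
    show ((((X.kind c).el m).1 * (X.a s' + (if false = true then 1 else 0) * X.len s') +
      ((X.kind c).el m).2.1) - X.a s -
      t * (((X.kind c).el m).1 * X.b s' + ((X.kind c).el m).2.2 - X.b s)) / X.len s = ξ
    rw [if_neg Bool.false_ne_true, ← h1, ← h2, div_eq_iff hpos.ne']
    ring
  · refine ⟨(s', m, true), ?_⟩
    have h1 : X.a s + ξ * X.len s + t * κ = ((X.kind c).el m).1 * (X.a s' + 1 * X.len s') +
        ((X.kind c).el m).2.1 := congrArg Prod.fst he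
    have h2 : X.b s + κ = ((X.kind c).el m).1 * X.b s' + ((X.kind c).el m).2.2 :=
      congrArg Prod.snd he
    show ((((X.kind c).el m).1 * (X.a s' + (if true = true then 1 else 0) * X.len s') +
      ((X.kind c).el m).2.1) - X.a s -
      t * (((X.kind c).el m).1 * X.b s' + ((X.kind c).el m).2.2 - X.b s)) / X.len s = ξ
    rw [if_pos rfl, ← h1, ← h2, div_eq_iff hpos.ne']
    ring

end H7K4G

theorem pf_K4G (hI : T_IRR) (hL : T_LOCF) (hE : T_EQV) : T_K4G := by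
  intro C S _ X hX t ht s k hsk hc
  have hck : ¬ X.Hopf (X.comp k) := hsk ▸ hc
  obtain ⟨H, hH, ε, hε, hI2⟩ := hI C S X hX k t hck ht.irr
  obtain ⟨h, hh, g, hg, η, hη, he⟩ := hI2 t (by simpa using hε) (X.pt s (1 / 2))
  have hls := hX.pos s
  have hlk := hX.pos k
  have hg1 : g.1 = 1 := deck_flat X hX _ hck g hg
  have hLpos : 0 < X.len s / X.len k := div_pos hls hlk
  have hη1 : 0 < 1 - η := by linarith [hη.2]
  have hδ : 0 < min (1 / 2 : ℝ) ((1 - η) / (X.len s / X.len k)) :=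
    lt_min (by norm_num) (div_pos hη1 hLpos)
  obtain ⟨ξ, hξn, hξ1, hξ2⟩ :=
    ((H7K4G.bad_countable X hX t s (X.comp s)).dense_compl ℝ).exists_between
      (show (1 / 2 : ℝ) < 1 / 2 + min (1 / 2 : ℝ) ((1 - η) / (X.len s / X.len k)) by linarith)
  have hm1 : min (1 / 2 : ℝ) ((1 - η) / (X.len s / X.len k)) ≤ 1 / 2 := min_le_left _ _
  have hm2 : min (1 / 2 : ℝ) ((1 - η) / (X.len s / X.len k)) ≤
    (1 - η) / (X.len s / X.len k) := min_le_right _ _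
  have hξI : ξ ∈ Ioo (0 : ℝ) 1 := ⟨by linarith, by linarith⟩
  have hη' : (ξ - 1 / 2) * (X.len s / X.len k) < 1 - η := by
    have : ξ - 1 / 2 < (1 - η) / (X.len s / X.len k) := by linarith
    calc (ξ - 1 / 2) * (X.len s / X.len k) < (1 - η) / (X.len s / X.len k) *
          (X.len s / X.len k) := mul_lt_mul_of_pos_right this hLpos
      _ = 1 - η := div_mul_cancel₀ _ hLpos.ne'
  have hη'' : 0 < (ξ - 1 / 2) * (X.len s / X.len k) := mul_pos (by linarith) hLpos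
  have hend : ∀ κ, 0 < κ → κ ≤ h → ¬ X.OnEnd (X.comp s) (fwd t (X.pt s ξ) κ) := by
    intro κ _ _ hon
    exact hξn ⟨κ, hon⟩
  refine H7K4G.chain hL hE X hX t s hc ξ hξI h hend h hh.1 le_rfl k g
    (η + (ξ - 1 / 2) * (X.len s / X.len k)) hsk.symm (hsk ▸ hg)
    ⟨by linarith [hη.1], by linarith⟩ ?_
  have h1 : X.a s + 1 / 2 * X.len s + t * h = g.1 * (X.a k + η * X.len k) + g.2.1 :=
    congrArg Prod.fst he
  have h2 : X.b s + h = g.1 * X.b k + g.2.2 := congrArg Prod.snd he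
  refine Prod.ext ?_ ?_
  · show X.a s + ξ * X.len s + t * h = g.1 * (X.a k + (η + (ξ - 1 / 2) *
      (X.len s / X.len k)) * X.len k) + g.2.1
    have h3 : (ξ - 1 / 2) * (X.len s / X.len k) * X.len k = (ξ - 1 / 2) * X.len s := by
      field_simp
    rw [hg1] at h1 ⊢
    nlinarith [h1, h3]
  · exact h2

end DS
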